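import Pool.Agent.W_e01c10_h65.Near

/-!
# The behaviour of `ψ(r)` at the right end point `2 / c` (problem MP_e01c10_co)

`Oriented`, `HasTriangle`, `outdeg`, `indeg`, `semideg`, `StrongOff`, `conn`, `Admissible`, `psi` are
defined in `Pool.Agent.W_e01c10_h65.Defs`; `CH` and `cch` (the constant `c` of the problem) in
`Pool.Agent.W_e01c10_h65.Glue`.
-/

namespace Pool.Agent.Results.MP_e01c10_co.EndpointLimit

open W_e01c10_h65 Filter Topology

/-- Whatever the value of the constant `c` of the problem is: for `2 / c - 1 / 6 < r < 2 / c` no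
`ψ > 2 / c - r` is admissible for `r`, so `ψ(r) ≤ 2 / c - r`, and `ψ(r) → 0` when `r` increases to
`2 / c`. -/
theorem result :
    (∀ r : ℝ, 2 / cch - 1 / 6 < r → r < 2 / cch →
      (∀ ψ, 2 / cch - r < ψ → ¬ Admissible r ψ) ∧ psi r ≤ 2 / cch - r) ∧
    Tendsto psi (𝓝[<] (2 / cch)) (𝓝 0) :=
  ⟨fun _ h h' => ⟨fun _ h2 => not_admissible' h h2 (by linarith), psi_le' h h'.le⟩, psi_tendsto⟩

end Pool.Agent.Results.MP_e01c10_co.EndpointLimit
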