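import Mathlib
import Pool.Agent.W_MP_e01c10_h47.Core

set_option autoImplicit false

namespace Pool.Agent.Results.MP_e01c10_co.SharpNearSix

open Pool.Agent.W_MP_e01c10_h47

/-- The Caccetta-Häggkvist bound for triangles with constant `1/3`: every loopless digraph on
`n ≥ 1` vertices, all of whose out-degrees are at least `n / 3`, has a directed cycle of length
`2` or `3`. -/
def CHThird : Prop :=
  ∀ (V : Type) [Fintype V] [Nonempty V] (R : V → V → Prop), (∀ x, ¬ R x x) →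
    (∀ x, Fintype.card V ≤ 3 * Nat.card {y : V // R x y}) →
    (∃ x y, R x y ∧ R y x) ∨ (∃ x y z, R x y ∧ R y z ∧ R z x)

/-! ### Upper bound -/

lemma ev_nonneg (c1 c2 c3 α β : ℝ) (hα : 0 ≤ α) (hβ : 0 ≤ β) (h : 0 < c1 * α + c2 * β) :
    ∀ᶠ N : ℕ in Filter.atTop,
      0 ≤ c1 * (⌊α * N⌋₊ : ℝ) + c2 * (⌊β * N⌋₊ : ℝ) + c3 := by
  have ht : Filter.Tendsto (fun N : ℕ => (c1 * α + c2 * β) * (N : ℝ)) Filter.atTop
      Filter.atTop := Filter.Tendsto.const_mul_atTop h tendsto_natCast_atTop_atTop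
  filter_upwards [ht.eventually_ge_atTop (|c1| + |c2| + |c3|)] with N hN
  have hN0 : (0 : ℝ) ≤ N := Nat.cast_nonneg N
  have ha1 : (⌊α * N⌋₊ : ℝ) ≤ α * N := Nat.floor_le (mul_nonneg hα hN0)
  have ha2 : α * N < ⌊α * N⌋₊ + 1 := Nat.lt_floor_add_one _
  have hb1 : (⌊β * N⌋₊ : ℝ) ≤ β * N := Nat.floor_le (mul_nonneg hβ hN0)
  have hb2 : β * N < ⌊β * N⌋₊ + 1 := Nat.lt_floor_add_one _
  have e1 : -|c1| ≤ c1 * ((⌊α * N⌋₊ : ℝ) - α * N) := by
    have h1 : |c1 * ((⌊α * N⌋₊ : ℝ) - α * N)| ≤ |c1| := by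
      rw [abs_mul]
      apply mul_le_of_le_one_right (abs_nonneg _)
      rw [abs_le]
      constructor <;> linarith
    have h2 := neg_abs_le (c1 * ((⌊α * N⌋₊ : ℝ) - α * N))
    linarith
  have e2 : -|c2| ≤ c2 * ((⌊β * N⌋₊ : ℝ) - β * N) := by
    have h1 : |c2 * ((⌊β * N⌋₊ : ℝ) - β * N)| ≤ |c2| := by
      rw [abs_mul]
      apply mul_le_of_le_one_right (abs_nonneg _)
      rw [abs_le]
      constructor <;> linarith
    have h2 := neg_abs_le (c2 * ((⌊β * N⌋₊ : ℝ) - β * N))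
    linarith
  have e3 := neg_abs_le c3
  nlinarith

/-- non-admissibility from real inequalities between the parameters -/
lemma step (l u a b : ℕ) (hl : 1 ≤ l) (r ψ' E : ℝ) (hE : E = 3 * (l : ℝ) + 5 * (u : ℝ) + 2)
    (hr0 : 0 ≤ r) (hψ0 : 0 ≤ ψ')
    (n2 : 0 ≤ (3 * (u : ℝ) + 2) * (a : ℝ) + (3 * (u : ℝ) + 1 - 3 * E) * (b : ℝ) +
      (2 * (u : ℝ) + 1 - E))
    (n3 : 0 ≤ (2 * (3 * ((l : ℝ) + (u : ℝ)) + 1)) * (a : ℝ) + (-(3 * ((l : ℝ) + E))) * (b : ℝ) +
      ((3 * ((l : ℝ) + (u : ℝ)) + 1) - ((l : ℝ) + (u : ℝ)) - (l : ℝ) - E))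
    (n4 : 0 ≤ ((r - 6) * (3 * ((l : ℝ) + (u : ℝ)) + 1)) * (a : ℝ) +
      (3 * r * ((l : ℝ) + E) - 3 * E - 6 * (3 * ((l : ℝ) + (u : ℝ)) + 1)) * (b : ℝ) +
      (r * (((l : ℝ) + (u : ℝ)) + (l : ℝ) + E) - E - 4 * (3 * ((l : ℝ) + (u : ℝ)) + 1)))
    (n5 : 0 ≤ (ψ' * (3 * ((l : ℝ) + (u : ℝ)) + 1)) * (a : ℝ) +
      (3 * ψ' * ((l : ℝ) + E) - 3 * E) * (b : ℝ) +
      (ψ' * (((l : ℝ) + (u : ℝ)) + (l : ℝ) + E) - E)) :
    ¬ Admissible r ψ' := by
  have hdv : ((dval l u a b ((3 * l + 5 * u + 2) * (3 * b + 1)) : ℕ) : ℝ) =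
      (3 * ((l : ℝ) + (u : ℝ)) + 1) * a + ((l : ℝ) + (u : ℝ)) + ((l : ℝ) + E) * (3 * b + 1) := by
    unfold dval
    push_cast
    rw [hE]
    ring
  have hsv : (((3 * l + 5 * u + 2) * (3 * b + 1) : ℕ) : ℝ) = E * (3 * (b : ℝ) + 1) := by
    push_cast
    rw [hE]
  apply not_admissible_of_params l u a b ((3 * l + 5 * u + 2) * (3 * b + 1)) r ψ' le_rfl
    _ _ hr0 hψ0 _ _ _
  · have h : ((dval l u a b ((3 * l + 5 * u + 2) * (3 * b + 1)) : ℕ) : ℝ) ≤
        (((l + 2 * u + 1) * (3 * a + 1) + ((l + u) * (3 * b + 1) + b) : ℕ) : ℝ) := by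
      rw [hdv]
      push_cast
      linarith
    exact_mod_cast h
  · have h : ((dval l u a b ((3 * l + 5 * u + 2) * (3 * b + 1)) : ℕ) : ℝ) ≤
        (((3 * (l + u) + 1) * (3 * a + 1) : ℕ) : ℝ) := by
      rw [hdv]
      push_cast
      linarith
    exact_mod_cast h
  · unfold dval
    have h1 : 1 * 1 ≤ (l + u) * (3 * a + 1) := Nat.mul_le_mul (by omega) (by omega)
    omega
  · rw [hdv, hsv]
    linarith
  · rw [hdv, hsv]
    linarith

/-- non-admissibility above the bound -/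
theorem not_admissible (l u : ℕ) (hl : 1 ≤ l) (r ψ' : ℝ) (hr6 : r < 6)
    (hτ : (6 - r) * (27 * l ^ 2 + 99 * l * u + 81 * u ^ 2 + 48 * l + 75 * u + 17) <
      3 * (3 * u + 2) * (15 * l + 19 * u + 8))
    (hψ' : (3 * l + 5 * u + 2) * (6 - r) < (15 * l + 19 * u + 8) * ψ') :
    ¬ Admissible r ψ' := by
  have hl' : (1 : ℝ) ≤ l := by exact_mod_cast hl
  have hu' : (0 : ℝ) ≤ u := Nat.cast_nonneg u
  set L : ℝ := (l : ℝ) with hL
  set U : ℝ := (u : ℝ) with hU
  obtain ⟨E, hE⟩ : ∃ E : ℝ, E = 3 * L + 5 * U + 2 := ⟨_, rfl⟩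
  obtain ⟨H, hH⟩ : ∃ H : ℝ, H = 15 * L + 19 * U + 8 := ⟨_, rfl⟩
  obtain ⟨K, hK⟩ : ∃ K : ℝ, K = 27 * L ^ 2 + 99 * L * U + 81 * U ^ 2 + 48 * L + 75 * U + 17 :=
    ⟨_, rfl⟩
  rw [← hH, ← hK] at hτ
  rw [← hE, ← hH] at hψ'
  have hLU : 0 ≤ L * U := by positivity
  have hLL : 1 ≤ L * L := by nlinarith
  have hUU : 0 ≤ U * U := by positivity
  have hE0 : 0 < E := by rw [hE]; positivity
  have hH0 : 0 < H := by rw [hH]; positivity
  have hK0 : 0 < K := by rw [hK]; positivity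
  have ht : 0 < 6 - r := by linarith
  -- the range of `r`
  have hr0 : 0 ≤ r := by
    by_contra hneg
    push Not at hneg
    have h1 : 6 * K < (6 - r) * K := by nlinarith
    have h2 : 3 * (3 * U + 2) * H ≤ 6 * K := by
      rw [hH, hK]
      nlinarith
    linarith
  have hψ0 : 0 < ψ' := by
    by_contra hneg
    push Not at hneg
    have h1 : 0 < E * (6 - r) := mul_pos hE0 ht
    have h2 : H * ψ' ≤ 0 := mul_nonpos_of_nonneg_of_nonpos hH0.le hneg
    linarith
  -- choose the parameter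
  obtain ⟨ψ, hψ1, hψ2⟩ : ∃ ψ, E * (6 - r) / H < ψ ∧
      ψ < min ψ' (3 * E * (3 * U + 2) / K) := by
    apply exists_between
    apply lt_min
    · rw [div_lt_iff₀ hH0]
      linarith
    · rw [div_lt_div_iff₀ hH0 hK0]
      nlinarith
  have hψa : ψ < ψ' := hψ2.trans_le (min_le_left _ _)
  have hψb : ψ * K < 3 * E * (3 * U + 2) := by
    have := hψ2.trans_le (min_le_right _ _)
    rwa [lt_div_iff₀ hK0] at this
  have hψc : E * (6 - r) < ψ * H := by rwa [div_lt_iff₀ hH0] at hψ1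
  have hψpos : 0 < ψ := by
    by_contra hneg
    push Not at hneg
    have h1 : 0 < E * (6 - r) := mul_pos hE0 ht
    have h2 : ψ * H ≤ 0 := mul_nonpos_of_nonpos_of_nonneg hneg hH0.le
    linarith
  have hM0 : 0 < 3 * (L + U) + 1 := by positivity
  -- a consequence of the bound on `ψ`
  have hψd : 3 * (E + L) * ψ < 2 * E := by
    have h1 : 9 * (E + L) * (3 * U + 2) ≤ 2 * K := by
      rw [hE, hK]
      nlinarith
    have h2 : 3 * (E + L) * (ψ * K) < 3 * (E + L) * (3 * E * (3 * U + 2)) := by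
      apply mul_lt_mul_of_pos_left hψb
      positivity
    have h3 : 3 * (E + L) * (3 * E * (3 * U + 2)) ≤ 2 * E * K := by nlinarith
    have h4 : (3 * (E + L) * ψ) * K < (2 * E) * K := by linarith
    exact lt_of_mul_lt_mul_right h4 hK0.le
  obtain ⟨β, hβ⟩ : ∃ β : ℝ, β = ψ / (3 * E) := ⟨_, rfl⟩
  obtain ⟨α, hα⟩ : ∃ α : ℝ, α = (1 - ψ - L * ψ / E) / (3 * (L + U) + 1) := ⟨_, rfl⟩
  have hβE : 3 * E * β = ψ := by rw [hβ]; field_simp
  have hαM : (3 * (L + U) + 1) * α = 1 - ψ - 3 * L * β := by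
    rw [hα, hβ]; field_simp
  have hβ0 : 0 < β := by rw [hβ]; positivity
  have hEα : E * ((3 * (L + U) + 1) * α) = E - E * ψ - L * ψ := by
    rw [hαM]
    linear_combination (-L) * hβE
  have hα0 : 0 < α := by
    have h1 : 0 < E * ((3 * (L + U) + 1) * α) := by
      rw [hEα]
      nlinarith
    exact (mul_pos_iff_of_pos_left hM0).mp ((mul_pos_iff_of_pos_left hE0).mp h1)
  -- the four strict inequalities
  have g2 : 0 < (3 * U + 2) * α + (3 * U + 1 - 3 * E) * β := by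
    have hKe : K = 3 * (3 * U + 2) * (E + L) + (3 * (L + U) + 1) * (3 * E - 3 * U - 1) := by
      rw [hK, hE]
      ring
    have h1 : (3 * E * (3 * (L + U) + 1)) * ((3 * U + 2) * α + (3 * U + 1 - 3 * E) * β) =
        3 * E * (3 * U + 2) - ψ * K := by
      rw [hKe]
      linear_combination (3 * (3 * U + 2)) * hEα + ((3 * (L + U) + 1) * (3 * U + 1 - 3 * E)) * hβE
    have h2 : 0 < (3 * E * (3 * (L + U) + 1)) *
        ((3 * U + 2) * α + (3 * U + 1 - 3 * E) * β) := by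
      rw [h1]
      linarith
    exact (mul_pos_iff_of_pos_left (by positivity)).mp h2
  have g3 : 0 < (2 * (3 * (L + U) + 1)) * α + (-(3 * (L + E))) * β := by
    have h1 : E * ((2 * (3 * (L + U) + 1)) * α + (-(3 * (L + E))) * β) =
        2 * E - 3 * (E + L) * ψ := by
      linear_combination 2 * hEα - (L + E) * hβE
    have h2 : 0 < E * ((2 * (3 * (L + U) + 1)) * α + (-(3 * (L + E))) * β) := by
      rw [h1]
      linarith
    exact (mul_pos_iff_of_pos_left hE0).mp h2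
  have g4 : 0 < ((r - 6) * (3 * (L + U) + 1)) * α +
      (3 * r * (L + E) - 3 * E - 6 * (3 * (L + U) + 1)) * β := by
    have hHe : H = 5 * E + 6 * L - 2 * (3 * (L + U) + 1) := by
      rw [hH, hE]
      ring
    have h1 : E * (((r - 6) * (3 * (L + U) + 1)) * α +
        (3 * r * (L + E) - 3 * E - 6 * (3 * (L + U) + 1)) * β) = ψ * H - E * (6 - r) := by
      rw [hHe]
      linear_combination (r - 6) * hEα + (r * (L + E) - E - 2 * (3 * (L + U) + 1)) * hβE
    have h2 : 0 < E * (((r - 6) * (3 * (L + U) + 1)) * α +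
        (3 * r * (L + E) - 3 * E - 6 * (3 * (L + U) + 1)) * β) := by
      rw [h1]
      linarith
    exact (mul_pos_iff_of_pos_left hE0).mp h2
  have g5 : 0 < (ψ' * (3 * (L + U) + 1)) * α + (3 * ψ' * (L + E) - 3 * E) * β := by
    have h1 : (ψ' * (3 * (L + U) + 1)) * α + (3 * ψ' * (L + E) - 3 * E) * β = ψ' - ψ := by
      linear_combination ψ' * hαM + (ψ' - 1) * hβE
    rw [h1]
    linarith
  have e2 := ev_nonneg _ _ (2 * U + 1 - E) α β hα0.le hβ0.le g2
  have e3 := ev_nonneg _ _ ((3 * (L + U) + 1) - (L + U) - L - E) α β hα0.le hβ0.le g3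
  have e4 := ev_nonneg _ _ (r * ((L + U) + L + E) - E - 4 * (3 * (L + U) + 1)) α β
    hα0.le hβ0.le g4
  have e5 := ev_nonneg _ _ (ψ' * ((L + U) + L + E) - E) α β hα0.le hβ0.le g5
  obtain ⟨N, ⟨⟨n2, n3⟩, n4⟩, n5⟩ := (((e2.and e3).and e4).and e5).exists
  exact step l u ⌊α * N⌋₊ ⌊β * N⌋₊ hl r ψ' E hE hr0 hψ0.le n2 n3 n4 n5

/-- the upper bound for `ψ(r)` -/
theorem psi_le (l u : ℕ) (r : ℝ) (hl : 1 ≤ l)
    (hr : 6 - 3 * (3 * u + 2) * (15 * l + 19 * u + 8) /
      (27 * l ^ 2 + 99 * l * u + 81 * u ^ 2 + 48 * l + 75 * u + 17) < r) (hr6 : r < 6) :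
    psi r ≤ (3 * l + 5 * u + 2) / (15 * l + 19 * u + 8) * (6 - r) := by
  have hl' : (1 : ℝ) ≤ l := by exact_mod_cast hl
  have hu' : (0 : ℝ) ≤ u := Nat.cast_nonneg u
  have hH0 : (0 : ℝ) < 15 * l + 19 * u + 8 := by positivity
  have hK0 : (0 : ℝ) < 27 * l ^ 2 + 99 * l * u + 81 * u ^ 2 + 48 * l + 75 * u + 17 := by
    positivity
  have ht : 0 < 6 - r := by linarith
  have hτ : (6 - r) * (27 * l ^ 2 + 99 * l * u + 81 * u ^ 2 + 48 * l + 75 * u + 17) <
      3 * (3 * u + 2) * (15 * l + 19 * u + 8) := by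
    have h1 : 6 - r < 3 * (3 * u + 2) * (15 * l + 19 * u + 8) /
      (27 * l ^ 2 + 99 * l * u + 81 * u ^ 2 + 48 * l + 75 * u + 17) := by linarith
    rwa [lt_div_iff₀ hK0] at h1
  unfold psi
  apply Real.sSup_le
  · rintro ψ ⟨_, _, hadm⟩
    by_contra h
    push Not at h
    refine not_admissible l u hl r ψ hr6 hτ ?_ hadm
    have h2 : (3 * l + 5 * u + 2) / (15 * l + 19 * u + 8) * (6 - r) =
      (3 * l + 5 * u + 2) * (6 - r) / (15 * l + 19 * u + 8) := by ring
    rw [h2, div_lt_iff₀ hH0] at h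
    linarith
  · positivity

/-- the bound near `6`, with an explicit quadratic error term -/
theorem psi_le_quad (r : ℝ) (hr : 9 / 2 < r) (hr6 : r < 6) :
    psi r ≤ (6 - r) / 5 + (6 - r) ^ 2 / 50 := by
  obtain ⟨t, ht⟩ : ∃ t : ℝ, t = 6 - r := ⟨_, rfl⟩
  have ht0 : 0 < t := by linarith
  have ht1 : t < 3 / 2 := by linarith
  -- reduction to the choice of a parameter
  have key : ∀ m : ℕ, 1 ≤ m → t * (27 * (m : ℝ) ^ 2 + 48 * m + 17) < 6 * (15 * m + 8) →
      20 ≤ t * (15 * m + 8) → psi r ≤ (6 - r) / 5 + (6 - r) ^ 2 / 50 := by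
    intro m hm h1 h2
    have hm' : (1 : ℝ) ≤ m := by exact_mod_cast hm
    have hH0 : (0 : ℝ) < 15 * m + 8 := by positivity
    have hK0 : (0 : ℝ) < 27 * (m : ℝ) ^ 2 + 48 * m + 17 := by positivity
    have h3 := psi_le m 0 r hm (by
      have h4 : t < 6 * (15 * m + 8) / (27 * (m : ℝ) ^ 2 + 48 * m + 17) := by
        rwa [lt_div_iff₀ hK0]
      have h5 : 3 * (3 * ((0 : ℕ) : ℝ) + 2) * (15 * m + 19 * ((0 : ℕ) : ℝ) + 8) /
          (27 * (m : ℝ) ^ 2 + 99 * m * ((0 : ℕ) : ℝ) + 81 * ((0 : ℕ) : ℝ) ^ 2 + 48 * m +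
            75 * ((0 : ℕ) : ℝ) + 17) =
          6 * (15 * m + 8) / (27 * (m : ℝ) ^ 2 + 48 * m + 17) := by
        congr 1
        · push_cast
          ring
        · push_cast
          ring
      rw [h5]
      linarith) hr6
    refine h3.trans ?_
    rw [← ht]
    have h6 : (3 * (m : ℝ) + 5 * ((0 : ℕ) : ℝ) + 2) / (15 * m + 19 * ((0 : ℕ) : ℝ) + 8) * t =
        (3 * m + 2) * t / (15 * m + 8) := by
      push_cast
      ring
    rw [h6, div_le_iff₀ hH0]
    nlinarith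
  by_cases hc : 20 / 23 ≤ t
  · apply key 1 le_rfl
    · push_cast
      linarith
    · push_cast
      linarith
  · push Not at hc
    have hx : 1 < (20 / t - 8) / 15 := by
      have h1 : 23 < 20 / t := by
        rw [lt_div_iff₀ ht0]
        linarith
      linarith
    have hm1 : (20 / t - 8) / 15 ≤ (⌈(20 / t - 8) / 15⌉₊ : ℝ) := Nat.le_ceil _
    have hm2 : (⌈(20 / t - 8) / 15⌉₊ : ℝ) < (20 / t - 8) / 15 + 1 :=
      Nat.ceil_lt_add_one (by linarith)
    have hm3 : 2 ≤ ⌈(20 / t - 8) / 15⌉₊ := by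
      have h1 : (1 : ℝ) < (⌈(20 / t - 8) / 15⌉₊ : ℝ) := hx.trans_le hm1
      exact_mod_cast h1
    set m := ⌈(20 / t - 8) / 15⌉₊ with hm
    have hm3' : (2 : ℝ) ≤ m := by exact_mod_cast hm3
    have h1 : 20 / t ≤ 15 * m + 8 := by linarith
    have h2 : 15 * (m : ℝ) - 7 < 20 / t := by linarith
    have h3 : 20 ≤ t * (15 * m + 8) := by
      rw [div_le_iff₀ ht0] at h1
      linarith
    have h4 : (15 * (m : ℝ) - 7) * t < 20 := by rwa [lt_div_iff₀ ht0] at h2
    apply key m (by omega) _ h3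
    have h5 : 0 < 15 * (m : ℝ) - 7 := by linarith
    have h6 : (15 * (m : ℝ) - 7) * (t * (27 * (m : ℝ) ^ 2 + 48 * m + 17)) <
        (15 * (m : ℝ) - 7) * (6 * (15 * m + 8)) := by
      have h7 : (15 * (m : ℝ) - 7) * t * (27 * (m : ℝ) ^ 2 + 48 * m + 17) <
          20 * (27 * (m : ℝ) ^ 2 + 48 * m + 17) :=
        mul_lt_mul_of_pos_right h4 (by positivity)
      nlinarith
    exact lt_of_mul_lt_mul_left h6 h5.le

/-! ### Lower bound, under the Caccetta-Häggkvist bound -/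

lemma ch_part (h : CHThird) {V : Type} [Fintype V] (A : V → V → Prop)
    (hasym : ∀ x y, A x y → ¬ A y x) (htri : ¬ ∃ x y z, A x y ∧ A y z ∧ A z x)
    (R S : Finset V) (hR : R.Nonempty) (hout : ∀ v ∈ R, ∀ w, A v w → w ∈ R ∨ w ∈ S) (d : ℕ)
    (hd : ∀ v ∈ R, d ≤ Nat.card {w // A v w}) : 3 * d < R.card + 3 * S.card := by
  classical
  by_contra hle
  push Not at hle
  have hRn : Nonempty ↥R := hR.to_subtype
  have hdeg : ∀ x : ↥R, Fintype.card ↥R ≤ 3 * Nat.card {y : ↥R // A x.1 y.1} := by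
    intro x
    have h1 : Nat.card {w // A x.1 w} ≤ Nat.card ({y : ↥R // A x.1 y.1} ⊕ ↥S) := by
      let f : {w // A x.1 w} → ({y : ↥R // A x.1 y.1} ⊕ ↥S) := fun w =>
        if hw : w.1 ∈ R then Sum.inl ⟨⟨w.1, hw⟩, w.2⟩
        else Sum.inr ⟨w.1, (hout x.1 x.2 w.1 w.2).resolve_left hw⟩
      have hf : Function.Injective f := by
        intro w w' hww
        simp only [f] at hww
        split_ifs at hww with h1 h2 h2
        · simp only [Sum.inl.injEq, Subtype.mk.injEq] at hww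
          exact Subtype.ext hww
        · simp only [Sum.inr.injEq, Subtype.mk.injEq] at hww
          exact Subtype.ext hww
      exact Nat.card_le_card_of_injective f hf
    rw [Nat.card_sum] at h1
    have h2 : Nat.card ↥S = S.card := by rw [Nat.card_eq_fintype_card, Fintype.card_coe]
    have h3 := hd x.1 x.2
    rw [Fintype.card_coe]
    omega
  rcases h ↥R (fun x y => A x.1 y.1) (fun x hx => hasym _ _ hx hx) hdeg with h1 | h1
  · obtain ⟨x, y, hxy, hyx⟩ := h1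
    exact hasym _ _ hxy hyx
  · obtain ⟨x, y, z, hxy, hyz, hzx⟩ := h1
    exact htri ⟨_, _, _, hxy, hyz, hzx⟩

lemma minSemiDegree_le {V : Type} (D : OrientedGraph V) (x : V) :
    minSemiDegree D ≤ outDeg D x ∧ minSemiDegree D ≤ inDeg D x :=
  ⟨Nat.sInf_le ⟨x, Or.inl rfl⟩, Nat.sInf_le ⟨x, Or.inr rfl⟩⟩

/-- under the Caccetta-Häggkvist bound, a triangle-free oriented graph has more than `6 d - 5 k`
vertices -/
lemma card_gt (h : CHThird) {V : Type} [Fintype V] (D : OrientedGraph V) (d : ℕ) (hd : 1 ≤ d)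
    (hD : minSemiDegree D = d) (htri : ¬ HasTriangle D) :
    6 * d < Fintype.card V + 5 * connectivity D := by
  classical
  -- a disconnecting set exists
  have hne : {k : ℕ | ∃ S : Finset V, S.card = k ∧
      ¬ StronglyConnectedMinus D (S : Set V)}.Nonempty := by
    have h0 : {k : ℕ | ∃ x : V, k = outDeg D x ∨ k = inDeg D x}.Nonempty := by
      by_contra hemp
      rw [Set.not_nonempty_iff_eq_empty] at hemp
      unfold minSemiDegree at hD
      rw [hemp, Nat.sInf_empty] at hD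
      omega
    obtain ⟨_, x, _⟩ := h0
    have h1 := (minSemiDegree_le D x).1
    rw [hD] at h1
    have h2 : 0 < Nat.card {y : V // D.arc x y} := by
      unfold outDeg at h1
      omega
    obtain ⟨⟨y, hy⟩⟩ := (Nat.card_pos_iff.mp h2).1
    refine ⟨_, Finset.univ \ {x, y}, rfl, ?_⟩
    intro hcon
    have hmem : ∀ w : V, w ∉ (((Finset.univ \ {x, y} : Finset V)) : Set V) ↔ w = x ∨ w = y := by
      intro w
      simp only [Finset.coe_sdiff, Finset.coe_univ, Finset.coe_insert, Finset.coe_singleton,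
        Set.mem_sdiff, Set.mem_univ, true_and, Set.mem_insert_iff, Set.mem_singleton_iff, not_not]
    have hr := hcon y x ((hmem y).mpr (Or.inr rfl)) ((hmem x).mpr (Or.inl rfl))
    have hinv : ∀ w, Relation.ReflTransGen (fun u v => D.arc u v ∧
        u ∉ (((Finset.univ \ {x, y} : Finset V)) : Set V) ∧
        v ∉ (((Finset.univ \ {x, y} : Finset V)) : Set V)) y w → w = y := by
      intro w hw
      induction hw with
      | refl => rfl
      | tail _ hstep ih =>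
        obtain ⟨harc, _, hw'⟩ := hstep
        rw [ih] at harc
        rcases (hmem _).mp hw' with h3 | h3
        · rw [h3] at harc
          exact absurd harc (D.asymm x y hy)
        · exact h3
    have hxy := hinv x hr
    rw [hxy] at hy
    exact D.asymm y y hy hy
  obtain ⟨S, hS, hnot⟩ := Nat.sInf_mem hne
  change S.card = connectivity D at hS
  unfold StronglyConnectedMinus at hnot
  push Not at hnot
  obtain ⟨x, y, hx, hy, hxy⟩ := hnot
  set reach : V → Prop := fun w =>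
    Relation.ReflTransGen (fun u v => D.arc u v ∧ u ∉ (S : Set V) ∧ v ∉ (S : Set V)) x w
    with hreach
  have hreachS : ∀ w, reach w → w ∉ S := by
    intro w hw
    rcases Relation.ReflTransGen.cases_tail hw with h1 | ⟨c, _, hc⟩
    · rw [h1]
      simpa using hx
    · simpa using hc.2.2
  have hstep : ∀ v w, reach v → D.arc v w → w ∉ S → reach w := by
    intro v w hv hvw hw
    exact Relation.ReflTransGen.tail hv ⟨hvw, by simpa using hreachS v hv, by simpa using hw⟩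
  let R : Finset V := Finset.univ.filter reach
  let L : Finset V := Finset.univ.filter (fun w => w ∉ S ∧ ¬ reach w)
  have hRmem : ∀ w, w ∈ R ↔ reach w := fun w => by simp [R]
  have hLmem : ∀ w, w ∈ L ↔ w ∉ S ∧ ¬ reach w := fun w => by simp [L]
  have hRn : R.Nonempty := ⟨x, (hRmem x).mpr Relation.ReflTransGen.refl⟩
  have hLn : L.Nonempty := ⟨y, (hLmem y).mpr ⟨by simpa using hy, hxy⟩⟩
  have k1 : 3 * d < R.card + 3 * S.card := by
    apply ch_part h D.arc D.asymm htri R S hRn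
    · intro v hv w hvw
      by_cases hw : w ∈ S
      · exact Or.inr hw
      · exact Or.inl ((hRmem w).mpr (hstep v w ((hRmem v).mp hv) hvw hw))
    · intro v _
      have := (minSemiDegree_le D v).1
      rw [hD] at this
      exact this
  have k2 : 3 * d < L.card + 3 * S.card := by
    apply ch_part h (fun p q => D.arc q p) (fun p q hpq => D.asymm q p hpq) _ L S hLn
    · intro v hv w hvw
      by_cases hw : w ∈ S
      · exact Or.inr hw
      · refine Or.inl ((hLmem w).mpr ⟨hw, fun hrw => ?_⟩)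
        exact ((hLmem v).mp hv).2 (hstep w v hrw hvw ((hLmem v).mp hv).1)
    · intro v _
      have := (minSemiDegree_le D v).2
      rw [hD] at this
      exact this
    · rintro ⟨p, q, w, h1, h2, h3⟩
      exact htri ⟨_, _, _, h3, h2, h1⟩
  have k3 : R.card + L.card + S.card = Fintype.card V := by
    have hRL : Disjoint R L := by
      rw [Finset.disjoint_left]
      intro w h1 h2
      exact ((hLmem w).mp h2).2 ((hRmem w).mp h1)
    have hRLS : Disjoint (R ∪ L) S := by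
      rw [Finset.disjoint_left]
      intro w h1 h2
      rcases Finset.mem_union.mp h1 with h3 | h3
      · exact hreachS w ((hRmem w).mp h3) h2
      · exact ((hLmem w).mp h3).1 h2
    rw [← Finset.card_union_of_disjoint hRL, ← Finset.card_union_of_disjoint hRLS,
      ← Finset.card_univ]
    congr 1
    ext w
    simp only [Finset.mem_union, Finset.mem_univ, iff_true, hRmem, hLmem]
    tauto
  omega

theorem le_psi (h : CHThird) (r : ℝ) (hr1 : 1 ≤ r) (hr6 : r < 6) : (6 - r) / 5 ≤ psi r := by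
  unfold psi
  apply le_csSup
  · exact ⟨1, fun ψ hψ => hψ.2.1⟩
  · refine ⟨by linarith, by linarith, ?_⟩
    intro V _ D d hd hD hn hk
    by_contra htri
    have h1 := card_gt h D d hd hD htri
    have h2 : (6 : ℝ) * d < Fintype.card V + 5 * connectivity D := by exact_mod_cast h1
    linarith

theorem tendsto_ratio (h : CHThird) :
    Filter.Tendsto (fun r => psi r / (6 - r)) (nhdsWithin 6 (Set.Iio 6)) (nhds (1 / 5)) := by
  have hlim : Filter.Tendsto (fun r : ℝ => 1 / 5 + (6 - r) / 50) (nhdsWithin 6 (Set.Iio 6))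
      (nhds (1 / 5)) := by
    have h1 : Filter.Tendsto (fun r : ℝ => 1 / 5 + (6 - r) / 50) (nhds 6)
        (nhds (1 / 5 + (6 - 6) / 50)) := by
      apply Continuous.tendsto
      fun_prop
    have h2 : (1 : ℝ) / 5 + (6 - 6) / 50 = 1 / 5 := by norm_num
    rw [h2] at h1
    exact h1.mono_left nhdsWithin_le_nhds
  have hev : ∀ᶠ r : ℝ in nhdsWithin 6 (Set.Iio 6), 5 < r ∧ r < 6 := by
    filter_upwards [self_mem_nhdsWithin,
      nhdsWithin_le_nhds (Ioi_mem_nhds (show (5 : ℝ) < 6 by norm_num))] with r h1 h2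
    exact ⟨h2, h1⟩
  refine tendsto_of_tendsto_of_tendsto_of_le_of_le' tendsto_const_nhds hlim ?_ ?_
  · filter_upwards [hev] with r hr
    rw [le_div_iff₀ (by linarith [hr.2])]
    have := le_psi h r (by linarith [hr.1]) hr.2
    linarith
  · filter_upwards [hev] with r hr
    rw [div_le_iff₀ (by linarith [hr.2])]
    have := psi_le_quad r (by linarith [hr.1]) hr.2
    nlinarith

/-- New upper bounds for `ψ(r)`, and, under the Caccetta-Häggkvist bound with constant `1/3`, the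
asymptotics of `ψ(r)` as `r → 6`. -/
theorem result :
    (∀ (l u : ℕ) (r : ℝ), 1 ≤ l →
      6 - 3 * (3 * u + 2) * (15 * l + 19 * u + 8) /
        (27 * l ^ 2 + 99 * l * u + 81 * u ^ 2 + 48 * l + 75 * u + 17) < r → r < 6 →
      psi r ≤ (3 * l + 5 * u + 2) / (15 * l + 19 * u + 8) * (6 - r)) ∧
    (∀ r : ℝ, 9 / 2 < r → r < 6 → psi r ≤ (6 - r) / 5 + (6 - r) ^ 2 / 50) ∧
    (CHThird → (∀ r : ℝ, 1 ≤ r → r < 6 → (6 - r) / 5 ≤ psi r) ∧
      Filter.Tendsto (fun r => psi r / (6 - r)) (nhdsWithin 6 (Set.Iio 6)) (nhds (1 / 5))) :=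
  ⟨fun l u r hl hr hr6 => psi_le l u r hl hr hr6, psi_le_quad,
    fun h => ⟨le_psi h, tendsto_ratio h⟩⟩

end Pool.Agent.Results.MP_e01c10_co.SharpNearSix
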