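import Mathlib
import Pool.Agent.W_e01c10_h95.Known

/-!
# The structure of the function `ψ(r)` (problem MP_e01c10_co)

`Oriented`, `HasTriangle`, `outdeg`, `indeg`, `semideg`, `StrongOff`, `conn`, `Admissible`, `psi` are
defined in `Pool.Agent.W_e01c10_h65.Defs`; `CH` and `cch` (the constant `c` of the problem) in
`Pool.Agent.W_e01c10_h65.Glue`.

The proofs use two constructions. If `D` is an oriented graph without triangles of order `n`, with
minimum semi-degree `d` and connectivity `k`, then the lexicographic product `D[D]` is an oriented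
graph without triangles of order `n²`, with minimum semi-degree at least `d (n + 1)` and
connectivity at most `k n`: both quotients `n / d` and `k / d` become smaller. If one takes `p`
copies of the vertices outside a minimum cut and `q ≤ p` copies of the vertices in the cut, then
one gets a graph of order `p n - (p - q) k`, with minimum semi-degree at least `p d - (p - q) k`
and connectivity at most `q k`: in the plane of the points `(n / d, k / d)` this is a motion along
the line through the point `(1, 1)`.
-/

namespace Pool.Agent.Results.MP_e01c10_co.StructureOfPsi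

open W_e01c10_h65

/-- (1) `ψ(r) = 1` if and only if every oriented graph with minimum semi-degree `d ≥ 1` and order at
most `r d` has a triangle (for `r = 3` this is the semi-degree case of the Caccetta-Häggkvist
conjecture). For `1 < r < 2 / c`: (2) the numbers in `(0, 1]` which are admissible for `r` are
those in `(0, ψ(r)]`, so that the supremum `ψ(r)` is itself admissible; (3) `ψ` is continuous from
the left at `r`; (4) `(1 - ψ(r')) / (r' - 1) ≤ (1 - ψ(r)) / (r - 1)` for `1 < r' ≤ r`. -/
theorem result :
    (∀ r : ℝ, psi r = 1 ↔ ∀ (V : Type) [Fintype V] (D : V → V → Prop), Oriented D →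
      1 ≤ semideg D → (Fintype.card V : ℝ) ≤ r * semideg D → HasTriangle D) ∧
    ∀ r : ℝ, 1 < r → r < 2 / cch →
      (0 < psi r ∧ ∀ ψ : ℝ, 0 < ψ → ψ ≤ 1 → (Admissible r ψ ↔ ψ ≤ psi r)) ∧
      ContinuousWithinAt psi (Set.Iic r) r ∧
      ∀ r' : ℝ, 1 < r' → r' ≤ r → (1 - psi r') / (r' - 1) ≤ (1 - psi r) / (r - 1) := by
  refine ⟨fun r => W_e01c10_h95.psi_eq_one, fun r h1 h2 => ?_⟩
  have hne := W_e01c10_h95.adm_nonempty (by linarith) h2
  obtain ⟨ψ0, hψ0⟩ := id hne
  refine ⟨⟨hψ0.1.trans_le (W_e01c10_h95.le_psi hψ0.1 hψ0.2.1 hψ0.2.2),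
    fun ψ h3 h4 => ⟨fun h => W_e01c10_h95.le_psi h3 h4 h,
      fun h => W_e01c10_h95.Admissible.mono (W_e01c10_h95.admissible_psi hne) le_rfl h⟩⟩,
    W_e01c10_h95.psi_left, fun r' h3 h4 => W_e01c10_h95.psi_law h3 h4 hne⟩

end Pool.Agent.Results.MP_e01c10_co.StructureOfPsi
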