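import Mathlib

set_option autoImplicit false

namespace Pool.Agent.Results.MP_e01c10_co.UpperBound

/-- An oriented graph on the vertex set `V`: a digraph without loops in which at most one of
`(x, y)`, `(y, x)` is an arc. -/
structure OrientedGraph (V : Type) where
  arc : V → V → Prop
  asymm : ∀ x y, arc x y → ¬ arc y x

variable {V : Type}

/-- Out-degree of a vertex. -/
noncomputable def outDeg (D : OrientedGraph V) (x : V) : ℕ := Nat.card {y : V // D.arc x y}

/-- In-degree of a vertex. -/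
noncomputable def inDeg (D : OrientedGraph V) (x : V) : ℕ := Nat.card {y : V // D.arc y x}

/-- Minimum semi-degree: the least number that is the out-degree or the in-degree of a vertex. -/
noncomputable def minSemiDegree (D : OrientedGraph V) : ℕ :=
  sInf {k : ℕ | ∃ x : V, k = outDeg D x ∨ k = inDeg D x}

/-- `D - S` is strongly connected: any two vertices outside `S` are joined in both directions by
directed walks avoiding `S`. -/
def StronglyConnectedMinus (D : OrientedGraph V) (S : Set V) : Prop :=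
  ∀ x y : V, x ∉ S → y ∉ S →
    Relation.ReflTransGen (fun u v => D.arc u v ∧ u ∉ S ∧ v ∉ S) x y

/-- Strong connectivity of `D`: the least size of a set `S` such that `D - S` is not strongly
connected. -/
noncomputable def connectivity (D : OrientedGraph V) : ℕ :=
  sInf {k : ℕ | ∃ S : Finset V, S.card = k ∧ ¬ StronglyConnectedMinus D (S : Set V)}

/-- `D` contains a directed triangle. -/
def HasTriangle (D : OrientedGraph V) : Prop :=
  ∃ x y z : V, D.arc x y ∧ D.arc y z ∧ D.arc z x

/-- `ψ` is admissible for `r`: every oriented graph with minimum semi-degree `d ≥ 1`, order at most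
`r d` and strong connectivity at most `ψ d` contains a directed triangle. -/
def Admissible (r ψ : ℝ) : Prop :=
  ∀ (V : Type) [Fintype V] (D : OrientedGraph V) (d : ℕ), 1 ≤ d → minSemiDegree D = d →
    (Fintype.card V : ℝ) ≤ r * d → (connectivity D : ℝ) ≤ ψ * d → HasTriangle D

/-- `ψ(r)`: the supremum of the numbers in `(0, 1]` that are admissible for `r`. -/
noncomputable def psi (r : ℝ) : ℝ := sSup {ψ : ℝ | 0 < ψ ∧ ψ ≤ 1 ∧ Admissible r ψ}

/-! ### The construction -/

/-- the circulant relation on `ZMod (3 k + 1)` with jumps `1, …, k` -/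
def circ (k : ℕ) (x y : ZMod (3 * k + 1)) : Prop := 1 ≤ (y - x).val ∧ (y - x).val ≤ k

lemma circ_asymm (k : ℕ) (x y : ZMod (3 * k + 1)) (h : circ k x y) : ¬ circ k y x := by
  rintro h'
  have h0 : y - x ≠ 0 := by
    intro h0
    have := h.1
    rw [h0, ZMod.val_zero] at this
    omega
  have : NeZero (y - x) := ⟨h0⟩
  have h1 : (x - y).val = (3 * k + 1) - (y - x).val := by
    rw [← ZMod.val_neg_of_ne_zero]
    congr 1
    ring
  unfold circ at h h'
  omega

lemma circ_triangle (k : ℕ) (x y z : ZMod (3 * k + 1)) (h1 : circ k x y) (h2 : circ k y z)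
    (h3 : circ k z x) : False := by
  have hsum : (((y - x).val + (z - y).val + (x - z).val : ℕ) : ZMod (3 * k + 1)) = 0 := by
    push_cast
    rw [ZMod.natCast_zmod_val, ZMod.natCast_zmod_val, ZMod.natCast_zmod_val]
    ring
  rw [ZMod.natCast_eq_zero_iff] at hsum
  have hle := Nat.le_of_dvd (by have := h1.1; omega) hsum
  unfold circ at h1 h2 h3
  omega

lemma card_interval (k : ℕ) :
    Nat.card {t : ZMod (3 * k + 1) // 1 ≤ t.val ∧ t.val ≤ k} = k := by
  have e : {t : ZMod (3 * k + 1) // 1 ≤ t.val ∧ t.val ≤ k} ≃ Fin k := by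
    refine ⟨fun t => ⟨t.1.val - 1, by have := t.2.1; have := t.2.2; omega⟩,
      fun i => ⟨((i.1 + 1 : ℕ) : ZMod (3 * k + 1)), ?_⟩, ?_, ?_⟩
    · rw [ZMod.val_natCast, Nat.mod_eq_of_lt (by have := i.2; omega)]
      have := i.2
      omega
    · rintro ⟨t, ht⟩
      apply Subtype.ext
      simp only
      have : t.val - 1 + 1 = t.val := by omega
      rw [this, ZMod.natCast_zmod_val]
    · rintro ⟨i, hi⟩
      apply Fin.ext
      simp only
      rw [ZMod.val_natCast, Nat.mod_eq_of_lt (by omega)]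
      omega
  rw [Nat.card_congr e, Nat.card_fin]

lemma card_circ_out (k : ℕ) (x : ZMod (3 * k + 1)) : Nat.card {y // circ k x y} = k := by
  have e : {y // circ k x y} ≃ {t : ZMod (3 * k + 1) // 1 ≤ t.val ∧ t.val ≤ k} :=
    (Equiv.subRight x).subtypeEquiv (fun y => Iff.rfl)
  rw [Nat.card_congr e, card_interval]

lemma card_circ_in (k : ℕ) (x : ZMod (3 * k + 1)) : Nat.card {y // circ k y x} = k := by
  have e : {y // circ k y x} ≃ {t : ZMod (3 * k + 1) // 1 ≤ t.val ∧ t.val ≤ k} :=
    (Equiv.subLeft x).subtypeEquiv (fun y => Iff.rfl)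
  rw [Nat.card_congr e, card_interval]

/-- vertex set of the construction: two copies of `ZMod (3 a + 1)`, two of `ZMod (3 b + 1)` -/
abbrev W (a b : ℕ) : Type := (Bool × ZMod (3 * a + 1)) ⊕ (Bool × ZMod (3 * b + 1))

/-- arcs of the construction -/
def warc (a b : ℕ) : W a b → W a b → Prop
  | Sum.inl p, Sum.inl q => p.1 = q.1 ∧ circ a p.2 q.2
  | Sum.inr p, Sum.inr q => p.1 = q.1 ∧ circ b p.2 q.2
  | Sum.inl p, Sum.inr q => p.1 = q.1
  | Sum.inr p, Sum.inl q => p.1 ≠ q.1

/-- the construction -/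
def G (a b : ℕ) : OrientedGraph (W a b) where
  arc := warc a b
  asymm := by
    rintro (⟨i, x⟩ | ⟨i, x⟩) (⟨j, y⟩ | ⟨j, y⟩) h h'
    · exact circ_asymm a x y h.2 h'.2
    · exact h' (Eq.symm h)
    · exact h (Eq.symm h')
    · exact circ_asymm b x y h.2 h'.2

lemma G_no_triangle (a b : ℕ) : ¬ HasTriangle (G a b) := by
  rintro ⟨x, y, z, h1, h2, h3⟩
  rcases x with ⟨i, x⟩ | ⟨i, x⟩ <;> rcases y with ⟨j, y⟩ | ⟨j, y⟩ <;>
    rcases z with ⟨l, z⟩ | ⟨l, z⟩
  · exact circ_triangle a x y z h1.2 h2.2 h3.2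
  · exact h3 (h2.symm.trans h1.1.symm)
  · exact h2 (h1.symm.trans h3.1.symm)
  · exact h3 (h2.1.symm.trans h1.symm)
  · exact h1 (h3.symm.trans h2.1.symm)
  · exact h1 (h3.1.symm.trans h2.symm)
  · exact h2 (h1.1.symm.trans h3.symm)
  · exact circ_triangle b x y z h1.2 h2.2 h3.2

lemma card_pair {Z : Type} (i : Bool) (P : Z → Prop) :
    Nat.card {q : Bool × Z // q.1 = i ∧ P q.2} = Nat.card {z // P z} := by
  apply Nat.card_congr
  refine ⟨fun q => ⟨q.1.2, q.2.2⟩, fun z => ⟨(i, z.1), rfl, z.2⟩, ?_, ?_⟩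
  · rintro ⟨⟨j, z⟩, h, hz⟩
    simp only at h
    subst h
    rfl
  · rintro ⟨z, hz⟩
    rfl

lemma card_split {α β : Type} [Finite α] [Finite β] (p : α ⊕ β → Prop) :
    Nat.card {c // p c} = Nat.card {a // p (Sum.inl a)} + Nat.card {b // p (Sum.inr b)} := by
  rw [Nat.card_congr Equiv.subtypeSum, Nat.card_sum]

lemma card_pair' {n : ℕ} [NeZero n] (P : Bool → Prop) (i : Bool) (hP : ∀ j, P j ↔ j = i) :
    Nat.card {q : Bool × ZMod n // P q.1} = n := by
  have h1 : Nat.card {q : Bool × ZMod n // P q.1} =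
      Nat.card {q : Bool × ZMod n // q.1 = i ∧ True} := by
    apply Nat.card_congr
    apply Equiv.subtypeEquivRight
    intro q
    rw [hP, and_true]
  rw [h1, card_pair i (fun _ : ZMod n => True)]
  rw [Nat.card_congr (Equiv.subtypeUnivEquiv fun _ => trivial), Nat.card_zmod]

lemma outDeg_inl (a b : ℕ) (i : Bool) (x : ZMod (3 * a + 1)) :
    outDeg (G a b) (Sum.inl (i, x)) = a + (3 * b + 1) := by
  unfold outDeg
  rw [card_split]
  congr 1
  · have : Nat.card {q : Bool × ZMod (3 * a + 1) // q.1 = i ∧ circ a x q.2} = a := by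
      rw [card_pair, card_circ_out]
    refine Eq.trans ?_ this
    apply Nat.card_congr
    apply Equiv.subtypeEquivRight
    intro q
    show (i = q.1 ∧ circ a x q.2) ↔ _
    rw [eq_comm]
  · exact card_pair' (fun j => i = j) i (fun j => eq_comm)

lemma outDeg_inr (a b : ℕ) (i : Bool) (x : ZMod (3 * b + 1)) :
    outDeg (G a b) (Sum.inr (i, x)) = (3 * a + 1) + b := by
  unfold outDeg
  rw [card_split]
  congr 1
  · exact card_pair' (fun j => i ≠ j) (!i) (fun j => by cases i <;> cases j <;> simp)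
  · have : Nat.card {q : Bool × ZMod (3 * b + 1) // q.1 = i ∧ circ b x q.2} = b := by
      rw [card_pair, card_circ_out]
    refine Eq.trans ?_ this
    apply Nat.card_congr
    apply Equiv.subtypeEquivRight
    intro q
    show (i = q.1 ∧ circ b x q.2) ↔ _
    rw [eq_comm]

lemma inDeg_inl (a b : ℕ) (i : Bool) (x : ZMod (3 * a + 1)) :
    inDeg (G a b) (Sum.inl (i, x)) = a + (3 * b + 1) := by
  unfold inDeg
  rw [card_split]
  congr 1
  · have : Nat.card {q : Bool × ZMod (3 * a + 1) // q.1 = i ∧ circ a q.2 x} = a := by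
      rw [card_pair i (fun z => circ a z x), card_circ_in]
    exact this
  · exact card_pair' (fun j => j ≠ i) (!i) (fun j => by cases i <;> cases j <;> simp)

lemma inDeg_inr (a b : ℕ) (i : Bool) (x : ZMod (3 * b + 1)) :
    inDeg (G a b) (Sum.inr (i, x)) = (3 * a + 1) + b := by
  unfold inDeg
  rw [card_split]
  congr 1
  · exact card_pair' (fun j => j = i) i (fun j => Iff.rfl)
  · have : Nat.card {q : Bool × ZMod (3 * b + 1) // q.1 = i ∧ circ b q.2 x} = b := by
      rw [card_pair i (fun z => circ b z x), card_circ_in]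
    exact this

lemma minSemiDegree_G (a b : ℕ) (hab : b ≤ a) : minSemiDegree (G a b) = a + (3 * b + 1) := by
  unfold minSemiDegree
  apply le_antisymm
  · apply Nat.sInf_le
    exact ⟨Sum.inl (true, 0), Or.inl (outDeg_inl a b true 0).symm⟩
  · apply le_csInf
    · exact ⟨_, Sum.inl (true, 0), Or.inl rfl⟩
    · rintro k ⟨w, hw⟩
      rcases w with ⟨i, x⟩ | ⟨i, x⟩
      · rw [outDeg_inl, inDeg_inl] at hw
        omega
      · rw [outDeg_inr, inDeg_inr] at hw
        omega

lemma connectivity_G_le (a b : ℕ) : connectivity (G a b) ≤ 3 * b + 1 := by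
  classical
  unfold connectivity
  apply Nat.sInf_le
  -- remove the second small part
  let S : Finset (W a b) := Finset.univ.image (fun x : ZMod (3 * b + 1) => Sum.inr (true, x))
  refine ⟨S, ?_, ?_⟩
  · rw [Finset.card_image_of_injective, Finset.card_univ, ZMod.card]
    intro x y h
    simpa using h
  · intro hcon
    have hmem : ∀ w : W a b, w ∈ (S : Set (W a b)) ↔ ∃ x, w = Sum.inr (true, x) := by
      intro w
      simp only [S, Finset.coe_image, Finset.coe_univ, Set.image_univ, Set.mem_range]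
      exact ⟨fun ⟨x, hx⟩ => ⟨x, hx.symm⟩, fun ⟨x, hx⟩ => ⟨x, hx.symm⟩⟩
    have h := hcon (Sum.inl (true, 0)) (Sum.inl (false, 0)) (by rw [hmem]; simp) (by rw [hmem]; simp)
    have hinv : ∀ w : W a b, Relation.ReflTransGen
        (fun u v => (G a b).arc u v ∧ u ∉ (S : Set (W a b)) ∧ v ∉ (S : Set (W a b)))
        (Sum.inl (true, 0)) w → ∃ x, w = Sum.inl (true, x) := by
      intro w hw
      induction hw with
      | refl => exact ⟨0, rfl⟩
      | tail _ hstep ih =>
        obtain ⟨x, rfl⟩ := ih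
        rename_i w' _
        obtain ⟨harc, _, hnot⟩ := hstep
        rcases w' with ⟨j, y⟩ | ⟨j, y⟩
        · have h1 : true = j := harc.1
          subst h1
          exact ⟨y, rfl⟩
        · have h1 : true = j := harc
          subst h1
          exact absurd ((hmem _).mpr ⟨y, rfl⟩) hnot
    obtain ⟨x, hx⟩ := hinv _ h
    simp at hx

lemma card_W (a b : ℕ) : Fintype.card (W a b) = 6 * a + 6 * b + 4 := by
  simp only [W, Fintype.card_sum, Fintype.card_prod, Fintype.card_bool, ZMod.card]
  ring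

/-- non-admissibility above the threshold -/
theorem not_admissible (r ψ : ℝ) (hr3 : 3 < r) (hr6 : r < 6) (hψ : (6 - r) / 4 < ψ) :
    ¬ Admissible r ψ := by
  intro hadm
  obtain ⟨p, hp1, hp2⟩ : ∃ p, (6 - r) / 4 < p ∧ p < min ψ (3 / 4) :=
    exists_between (lt_min hψ (by linarith))
  have hpψ : p < ψ := hp2.trans_le (min_le_left _ _)
  have hp34 : p < 3 / 4 := hp2.trans_le (min_le_right _ _)
  have hp0 : 0 < p := lt_trans (by linarith) hp1
  -- choose `N`
  obtain ⟨N, hN⟩ := exists_nat_gt (max (max ((3 * r + 4) / (3 * r - 18 + 12 * p))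
    ((1 + 3 * ψ) / (3 * (ψ - p)))) (1 / (3 - 4 * p)))
  have hd1 : 0 < 3 * r - 18 + 12 * p := by linarith
  have hd2 : 0 < 3 * (ψ - p) := by linarith
  have hd3 : 0 < 3 - 4 * p := by linarith
  have hN1 : (3 * r + 4) < N * (3 * r - 18 + 12 * p) := by
    rw [← div_lt_iff₀ hd1]
    exact (le_max_left _ _).trans_lt ((le_max_left _ _).trans_lt hN)
  have hN2 : (1 + 3 * ψ) < N * (3 * (ψ - p)) := by
    rw [← div_lt_iff₀ hd2]
    exact (le_max_right _ _).trans_lt ((le_max_left _ _).trans_lt hN)
  have hN3 : 1 < N * (3 - 4 * p) := by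
    rw [← div_lt_iff₀ hd3]
    exact (le_max_right _ _).trans_lt hN
  set b := ⌊p * N⌋₊ with hb
  set a := ⌊3 * (1 - p) * N⌋₊ with ha
  have hpN : 0 ≤ p * N := by positivity
  have hqN : 0 ≤ 3 * (1 - p) * N := by
    apply mul_nonneg _ (Nat.cast_nonneg N)
    linarith
  have hb1 : (b : ℝ) ≤ p * N := Nat.floor_le hpN
  have hb2 : p * N < b + 1 := Nat.lt_floor_add_one _
  have ha1 : (a : ℝ) ≤ 3 * (1 - p) * N := Nat.floor_le hqN
  have ha2 : 3 * (1 - p) * N < a + 1 := Nat.lt_floor_add_one _
  have hab : b ≤ a := by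
    have : (b : ℝ) < a := by nlinarith
    exact_mod_cast this.le
  apply G_no_triangle a b
  apply hadm (W a b) (G a b) (a + (3 * b + 1)) (by omega) (minSemiDegree_G a b hab)
  · rw [card_W]
    push_cast
    nlinarith
  · have h1 : (connectivity (G a b) : ℝ) ≤ 3 * b + 1 := by exact_mod_cast connectivity_G_le a b
    refine h1.trans ?_
    push_cast
    nlinarith

/-- For every real `r` with `3 < r < 6`, `ψ(r) ≤ (6 - r) / 4`. -/
theorem result (r : ℝ) (hr3 : 3 < r) (hr6 : r < 6) : psi r ≤ (6 - r) / 4 := by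
  unfold psi
  apply Real.sSup_le
  · rintro ψ ⟨_, _, hadm⟩
    by_contra h
    push Not at h
    exact not_admissible r ψ hr3 hr6 h hadm
  · linarith

end Pool.Agent.Results.MP_e01c10_co.UpperBound
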